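import Pool.Agent.Lib_helper58.Final

/-!
# MP_fe0060_co: triangles of area one in plane sets of large measure

There is a constant `c > 0` such that for every `t > 0` every Lebesgue measurable set of the Euclidean
plane of area at least `c t` contains the three vertices of a triangle of area exactly `t`. For `t = 1`
this is the question; in particular a set of infinite area contains triangles of every area.
-/

set_option autoImplicit false

open MeasureTheory

namespace Pool.Agent.Results.MP_fe0060_co.TriangleOfEveryArea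

/-- the Euclidean plane -/
abbrev Plane := EuclideanSpace ℝ (Fin 2)

/-- the area `|det(q - p, r - p)| / 2` of the triangle with vertices `p`, `q`, `r` -/
noncomputable def triangleArea (p q r : Plane) : ℝ :=
  |(Matrix.of ![![(q - p) 0, (q - p) 1], ![(r - p) 0, (r - p) 1]]).det| / 2

theorem triangleArea_eq (p q r : Plane) :
    triangleArea p q r = |(q 0 - p 0) * (r 1 - p 1) - (r 0 - p 0) * (q 1 - p 1)| / 2 := by
  unfold triangleArea
  rw [Matrix.det_fin_two_of]
  simp only [PiLp.sub_apply]
  congr 2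
  ring

/-- the map `(x, y) ↦ (s x, s y)` from the product to the Euclidean plane -/
noncomputable def emb (s : ℝ) (v : ℝ × ℝ) : Plane := s • (!₂[v.1, v.2] : Plane)

theorem emb_measure {s : ℝ} (hs : 0 < s) {E : Set Plane} (hE : MeasurableSet E) :
    MeasurableSet (emb s ⁻¹' E) ∧ volume (emb s ⁻¹' E) = ENNReal.ofReal (s ^ 2)⁻¹ * volume E := by
  have h1 : MeasurePreserving (fun v : ℝ × ℝ => (!₂[v.1, v.2] : Plane)) volume volume := by
    have h2 := (EuclideanSpace.volume_preserving_symm_measurableEquiv_toLp (Fin 2)).symm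
    have h3 := (volume_preserving_finTwoArrow ℝ).symm
    exact h2.comp h3
  have h4 : MeasurableSet ((fun x : Plane => s • x) ⁻¹' E) := (measurable_const_smul s) hE
  have h5 : emb s ⁻¹' E = (fun v : ℝ × ℝ => (!₂[v.1, v.2] : Plane)) ⁻¹'
      ((fun x : Plane => s • x) ⁻¹' E) := rfl
  refine ⟨by rw [h5]; exact h1.measurable h4, ?_⟩
  rw [h5, h1.measure_preimage h4.nullMeasurableSet, Measure.addHaar_preimage_smul _ hs.ne']
  congr 2
  rw [finrank_euclideanSpace_fin, abs_of_pos (by positivity)]

/-- There is a constant `c > 0` such that for every `t > 0` every Lebesgue measurable plane set of area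
at least `c t` contains the vertices of a triangle of area `t`. -/
theorem result :
    ∃ c : ℝ, 0 < c ∧ ∀ t : ℝ, 0 < t → ∀ E : Set Plane, NullMeasurableSet E volume →
      ENNReal.ofReal (c * t) ≤ volume E →
      ∃ p ∈ E, ∃ q ∈ E, ∃ r ∈ E, triangleArea p q r = t := by
  obtain ⟨c, hc, h⟩ := Pool.Agent.H58.erdos352
  refine ⟨c, hc, fun t ht E hE hv => ?_⟩
  obtain ⟨E', hE'E, hE'm, hE'ae⟩ := hE.exists_measurable_subset_ae_eq
  have hs : 0 < Real.sqrt t := Real.sqrt_pos.2 ht
  obtain ⟨h1, h2⟩ := emb_measure hs hE'm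
  have h3 : ENNReal.ofReal c ≤ volume (emb (Real.sqrt t) ⁻¹' E') := by
    rw [h2, measure_congr hE'ae, Real.sq_sqrt ht.le]
    calc ENNReal.ofReal c = ENNReal.ofReal t⁻¹ * ENNReal.ofReal (c * t) := by
          rw [← ENNReal.ofReal_mul (by positivity)]
          congr 1
          field_simp
      _ ≤ _ := by gcongr
  obtain ⟨p, hp, q, hq, r, hr, h4⟩ := h _ h1.nullMeasurableSet h3
  refine ⟨_, hE'E hp, _, hE'E hq, _, hE'E hr, ?_⟩
  rw [triangleArea_eq]
  have e : ∀ (v : ℝ × ℝ), (emb (Real.sqrt t) v) 0 = Real.sqrt t * v.1 ∧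
      (emb (Real.sqrt t) v) 1 = Real.sqrt t * v.2 := fun v => by
    constructor <;> simp [emb]
  rw [(e p).1, (e p).2, (e q).1, (e q).2, (e r).1, (e r).2]
  have h5 : (Real.sqrt t * q.1 - Real.sqrt t * p.1) * (Real.sqrt t * r.2 - Real.sqrt t * p.2) -
      (Real.sqrt t * r.1 - Real.sqrt t * p.1) * (Real.sqrt t * q.2 - Real.sqrt t * p.2) =
      Real.sqrt t ^ 2 * ((q.1 - p.1) * (r.2 - p.2) - (r.1 - p.1) * (q.2 - p.2)) := by ring
  rw [h5, abs_mul, h4, Real.sq_sqrt ht.le, abs_of_pos ht]
  ring

end Pool.Agent.Results.MP_fe0060_co.TriangleOfEveryArea
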